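import Pool.Agent.Lib.Caf1090.Main

open Pool.Agent.Lib.Caf1090

namespace Pool.Agent.Results.MP_af1090_al.SolvableMalcevInfiniteSuperrank

universe u

/-- Let `F` be a field of characteristic zero, let `𝓜` be the variety of the Malcev algebras `A`
over `F` with `(A³)² = 0` and let `𝓛` be the variety of the Lie algebras `A` over `F` with
`(A³)² = 0`.  Then `𝓛 ⊆ 𝓜`, and every variety `𝓥` with `𝓛 ⊆ 𝓥 ⊆ 𝓜` is solvable of index three and
is not generated by the Grassmann envelope of a superalgebra generated by `r` even and `s` odd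
elements, for any `r` and `s`: it has infinite basic superrank. -/
theorem result (F : Type u) [Field F] [CharZero F] :
    (∀ f ∈ malcevT F, IdentityOf F (lieT F) f) ∧
    ∀ T : Set (NAPoly F), malcevT F ⊆ T → (∀ f ∈ T, IdentityOf F (lieT F) f) →
      IdentityOf F T (solv F 3 0) ∧ ∀ r s : ℕ, ¬ IsGeneratedBySuper F T r s :=
  ⟨malcev_of_lie F, fun T h₁ h₂ => ⟨solvable_three F T h₁, infinite_superrank F T h₁ h₂⟩⟩

end Pool.Agent.Results.MP_af1090_al.SolvableMalcevInfiniteSuperrank
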